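import Pool.Agent.DPF.Stmts

/-!
# DPF row STP (helper15): the step
-/

set_option autoImplicit false

namespace Pool.Agent.DPF.H15

open Finset Pool.Agent.DPS Pool.Agent.DPF

theorem ini_card {n L : ℕ} (h : L ≤ n) : (ini n L).card = L := by
  unfold ini
  have h1 : (univ.filter fun x : Fin n => x.val < L) =
      (univ : Finset (Fin L)).map (Fin.castLEEmb h) := by
    ext x
    simp only [mem_filter, mem_univ, true_and, mem_map]
    constructor
    · intro hx
      exact ⟨⟨x.val, hx⟩, by ext; simp⟩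
    · rintro ⟨y, rfl⟩
      simp
  rw [h1, card_map, card_univ, Fintype.card_fin]

section Expectation

variable {n k t L ν : ℕ} (ρ : Rl k t L ν)

theorem ex_eq (f : Fin ρ.N → Fin n → ℝ) :
    ex ρ f = ∑ p ∈ (univ : Finset (Fin ρ.N)) ×ˢ ini n L, (ρ.w p.1 / L) * f p.1 p.2 := by
  unfold ex
  rw [sum_product]
  refine sum_congr rfl fun i _ => ?_
  dsimp only
  rw [← mul_sum]
  ring

theorem ex_add (f g : Fin ρ.N → Fin n → ℝ) :
    ex ρ (fun i j => f i j + g i j) = ex ρ f + ex ρ g := by
  rw [ex_eq, ex_eq, ex_eq, ← sum_add_distrib]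
  exact sum_congr rfl fun p _ => by ring

theorem ex_sub (f g : Fin ρ.N → Fin n → ℝ) :
    ex ρ (fun i j => f i j - g i j) = ex ρ f - ex ρ g := by
  rw [ex_eq, ex_eq, ex_eq, ← sum_sub_distrib]
  exact sum_congr rfl fun p _ => by ring

theorem ex_mul (a : ℝ) (f : Fin ρ.N → Fin n → ℝ) :
    ex ρ (fun i j => a * f i j) = a * ex ρ f := by
  rw [ex_eq, ex_eq, mul_sum]
  exact sum_congr rfl fun p _ => by ring

theorem ex_sum {α : Type*} (S : Finset α) (f : α → Fin ρ.N → Fin n → ℝ) :
    ex ρ (fun i j => ∑ a ∈ S, f a i j) = ∑ a ∈ S, ex ρ (f a) := by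
  simp only [ex_eq]
  rw [sum_comm]
  refine sum_congr rfl fun p _ => ?_
  rw [mul_sum]

theorem ex_mono {f g : Fin ρ.N → Fin n → ℝ} (h : ∀ i j, f i j ≤ g i j) : ex ρ f ≤ ex ρ g := by
  rw [ex_eq, ex_eq]
  refine sum_le_sum fun p _ => ?_
  exact mul_le_mul_of_nonneg_left (h _ _) (div_nonneg (ρ.nonneg _) (Nat.cast_nonneg _))

theorem w_nonneg : ∀ p ∈ (univ : Finset (Fin ρ.N)) ×ˢ ini n L, 0 ≤ ρ.w p.1 / (L : ℝ) :=
  fun _ _ => div_nonneg (ρ.nonneg _) (Nat.cast_nonneg _)

theorem w_sum (h1 : 1 ≤ L) (h2 : L ≤ n) :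
    ∑ p ∈ (univ : Finset (Fin ρ.N)) ×ˢ ini n L, ρ.w p.1 / (L : ℝ) = 1 := by
  have hL : (L : ℝ) ≠ 0 := by
    have : (0 : ℝ) < L := by exact_mod_cast h1
    exact this.ne'
  rw [sum_product]
  have h3 : ∀ i ∈ (univ : Finset (Fin ρ.N)), ∑ _j ∈ ini n L, ρ.w i / (L : ℝ) = ρ.w i := by
    intro i _
    rw [sum_const, ini_card h2, nsmul_eq_mul]
    field_simp
  rw [sum_congr rfl h3, ρ.sum_one]

theorem ex_const (h1 : 1 ≤ L) (h2 : L ≤ n) (a : ℝ) :
    ex (n := n) ρ (fun _ _ => a) = a := by
  rw [ex_eq, ← sum_mul, w_sum ρ h1 h2, one_mul]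

open Classical in
/-- the probability of being kept -/
theorem ex_kp (h1 : 1 ≤ L) (h2 : L ≤ n) (E : Finset (Fin n)) (hE : E ⊆ ini n L) :
    ex ρ (fun i j => if kp (ρ.st i) j E then (1 : ℝ) else 0) =
      ∑ i, ρ.w i *
        (if ρ.st i E.card = 0 then 0 else if ρ.st i E.card = 1 then 1
          else ((L : ℝ) - E.card) / L) := by
  have hL : (0 : ℝ) < L := by exact_mod_cast h1
  unfold ex
  refine sum_congr rfl fun i _ => ?_
  congr 1
  by_cases h0 : ρ.st i E.card = 0
  · rw [if_pos h0]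
    have : ∀ j ∈ ini n L, (if kp (ρ.st i) j E then (1 : ℝ) else 0) = 0 := by
      intro j _
      rw [if_neg]
      unfold kp
      rw [h0]
      omega
    rw [sum_congr rfl this, sum_const_zero, zero_div]
  · rw [if_neg h0]
    by_cases h3 : ρ.st i E.card = 1
    · rw [if_pos h3]
      have : ∀ j ∈ ini n L, (if kp (ρ.st i) j E then (1 : ℝ) else 0) = 1 := by
        intro j _
        rw [if_pos]
        exact Or.inl h3
      rw [sum_congr rfl this, sum_const, ini_card h2, nsmul_eq_mul, mul_one]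
      exact div_self hL.ne'
    · rw [if_neg h3]
      have : ∀ j ∈ ini n L, (if kp (ρ.st i) j E then (1 : ℝ) else 0) =
          if j ∈ ini n L \ E then 1 else 0 := by
        intro j hj
        by_cases hjE : j ∈ E
        · rw [if_neg, if_neg]
          · rw [mem_sdiff]
            exact fun h => h.2 hjE
          · rintro (h | h)
            · exact h3 h
            · exact h.2 hjE
        · rw [if_pos, if_pos]
          · exact mem_sdiff.mpr ⟨hj, hjE⟩
          · exact Or.inr ⟨by omega, hjE⟩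
      rw [sum_congr rfl this, sum_ite_mem]
      rw [inter_eq_right.mpr sdiff_subset, sum_const, card_sdiff_of_subset hE, ini_card h2,
        nsmul_eq_mul, mul_one, Nat.cast_sub]
      have := card_le_card hE
      rwa [ini_card h2] at this

open Classical in
theorem ex_gm_nonneg (h1 : 1 ≤ L) (h2 : L ≤ n) (X : Finset (Finset (Fin n)))
    (m : Finset (Fin n) → ℝ) (hm : ∀ E ∈ X, 0 ≤ m E)
    (hX : ∀ E ∈ X, E ⊆ ini n L ∧ t ≤ E.card ∧ E.card + 1 ≤ L)
    (hz : ∀ E ∈ X, (k ≤ E.card ∨ E.card + ν < k) → m E = 0) :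
    0 ≤ ex ρ (fun i j => gm ν k (ρ.st i) j X m) := by
  have e1 : ex ρ (fun i j => gm ν k (ρ.st i) j X m) =
      ∑ E ∈ X, m E * (se ν k E.card *
        ex ρ (fun i j => if kp (ρ.st i) j E then (1 : ℝ) else 0) - 1) := by
    unfold gm
    rw [ex_sum]
    refine sum_congr rfl fun E _ => ?_
    rw [ex_mul, ex_sub, ex_const ρ h1 h2]
    congr 2
    rw [← ex_mul]
    congr 1
    funext i j
    by_cases h : kp (ρ.st i) j E
    · rw [if_pos h, if_pos h, mul_one]
    · rw [if_neg h, if_neg h, mul_zero]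
  rw [e1]
  refine sum_nonneg fun E hE => ?_
  by_cases hzE : k ≤ E.card ∨ E.card + ν < k
  · rw [hz E hE hzE, zero_mul]
  · refine mul_nonneg (hm E hE) ?_
    rw [ex_kp ρ h1 h2 E (hX E hE).1]
    have := ρ.keep E.card (hX E hE).2.1 (hX E hE).2.2 (by omega) (by omega)
    linarith

end Expectation

/-- re-indexing -/
theorem reindex {α : Type*} [DecidableEq α] (U : Finset α) (F : Finset α → α → ℝ) :
    ∑ A ∈ U.powerset, ∑ y ∈ A, F (A.erase y) y = ∑ A ∈ U.powerset, ∑ y ∈ U \ A, F A y := by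
  rw [Finset.sum_sigma', Finset.sum_sigma']
  refine Finset.sum_bij' (fun p _ => ⟨p.1.erase p.2, p.2⟩) (fun p _ => ⟨insert p.2 p.1, p.2⟩)
    ?_ ?_ ?_ ?_ ?_
  · rintro ⟨J, x⟩ h
    simp only [Finset.mem_sigma, mem_powerset, mem_sdiff] at h ⊢
    exact ⟨(erase_subset _ _).trans h.1, h.1 h.2, notMem_erase _ _⟩
  · rintro ⟨I, x⟩ h
    simp only [Finset.mem_sigma, mem_powerset, mem_sdiff] at h ⊢
    exact ⟨insert_subset h.2.1 h.1, mem_insert_self _ _⟩
  · rintro ⟨J, x⟩ h
    simp only [Finset.mem_sigma] at h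
    simp only [insert_erase h.2]
  · rintro ⟨I, x⟩ h
    simp only [Finset.mem_sigma, mem_sdiff] at h
    simp only [erase_insert h.2.2]
  · rintro ⟨J, x⟩ h
    rfl

open Classical in
theorem gg_eq_hh {n k ν b : ℕ} (hν : 1 ≤ ν) (hb : ν = b) (st : ℕ → ℕ) (j : Fin n)
    (X : Finset (Finset (Fin n))) :
    gg ν k st j X (fun E => (mm ν k b E.card : ℝ)) =
      hh st j X (fun E => (mm ν k b E.card : ℝ)) := by
  subst hb
  unfold gg hh
  refine sum_congr rfl fun E _ => ?_
  by_cases hk : kp st j E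
  · rw [if_pos hk, if_pos hk]
    unfold mm
    dsimp only
    by_cases h1 : E.card + ν ≤ k
    · rw [if_pos h1]
      by_cases h2 : k = E.card + ν
      · have hse : se ν k E.card = 1 := by
          unfold se
          have h3 : (k : ℝ) - E.card = ν := by
            rw [h2]
            push_cast
            ring
          rw [h3]
          apply div_self
          have : (0 : ℝ) < ν := by exact_mod_cast hν
          exact this.ne'
        rw [hse, one_mul]
      · have h3 : (ν - ν).choose (k - E.card - ν) = 0 := by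
          rw [Nat.sub_self]
          apply Nat.choose_eq_zero_of_lt
          omega
        rw [h3]
        simp
    · rw [if_neg h1]
      simp
  · rw [if_neg hk, if_neg hk]

open Classical in
/-- `G1` is `gy` for `A - y` -/
theorem gm_eq_gy {n k ν : ℕ} (st : ℕ → ℕ) (j : Fin n) (X : Finset (Finset (Fin n)))
    (m : Finset (Fin n) → ℝ) (A : Finset (Fin n)) (y : Fin n) (hy : y ∈ A) :
    gm ν k st j (ov X A) m = gy ν k st j (ov X (A.erase y)) m y := by
  unfold gm gy ov
  rw [sum_filter, sum_filter]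
  refine sum_congr rfl fun E _ => ?_
  by_cases h1 : A ⊆ E
  · rw [if_pos h1, if_pos ((erase_subset _ _).trans h1), if_pos (h1 hy)]
  · rw [if_neg h1]
    by_cases h2 : A.erase y ⊆ E
    · rw [if_pos h2]
      by_cases h3 : y ∈ E
      · exfalso
        apply h1
        intro z hz
        by_cases hzy : z = y
        · rw [hzy]; exact h3
        · exact h2 (mem_erase.mpr ⟨hzy, hz⟩)
      · rw [if_neg h3]
    · rw [if_neg h2]

section Filter

open Classical in
theorem filter_sums {n k ν : ℕ} (st : ℕ → ℕ) (j : Fin n) (X : Finset (Finset (Fin n)))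
    (m : Finset (Fin n) → ℝ) (q : Finset (Fin n) → Prop) (hz : ∀ E ∈ X, ¬ q E → m E = 0) :
    ∑ E ∈ X.filter q, m E = ∑ E ∈ X, m E ∧ hh st j (X.filter q) m = hh st j X m ∧
      gg ν k st j (X.filter q) m = gg ν k st j X m ∧
      ∀ y, gy ν k st j (X.filter q) m y = gy ν k st j X m y := by
  refine ⟨?_, ?_, ?_, ?_⟩
  · rw [sum_filter]
    refine sum_congr rfl fun E hE => ?_
    by_cases h : q E
    · rw [if_pos h]
    · rw [if_neg h, hz E hE h]
  · unfold hh
    rw [sum_filter]
    refine sum_congr rfl fun E hE => ?_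
    by_cases h : q E
    · rw [if_pos h]
    · rw [if_neg h, hz E hE h]
      simp
  · unfold gg
    rw [sum_filter]
    refine sum_congr rfl fun E hE => ?_
    by_cases h : q E
    · rw [if_pos h]
    · rw [if_neg h, hz E hE h]
      simp
  · intro y
    unfold gy
    rw [sum_filter]
    refine sum_congr rfl fun E hE => ?_
    by_cases h : q E
    · rw [if_pos h]
    · rw [if_neg h, hz E hE h]
      simp

end Filter

open Classical in
theorem stp (hSUM : SUMStmt) (hCMP : CMPStmt) (hCFL : CFLStmt) (hMNB : MNBStmt) (hJNS : JNSStmt)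
    (hSEF : SEFStmt) (hGAI : GAIStmt) (hEXT : EXTStmt) : STPStmt := by
  intro n k t r θ c 𝒯 ht htc hG hC hini ρ hTT
  have hLn : c.val ≤ n := c.2.le
  have hL1 : 1 ≤ c.val := by omega
  have hone : 1 ≤ n - c.val := by have := c.2; omega
  obtain ⟨cf1, cf2, cf3, cf4, cf5⟩ := hCFL n t c 𝒯 ht (by omega) hG hC
  have cf2' := cf2 hini
  have hXsub : ∀ E ∈ XX c 𝒯, E ⊆ ini n c.val := by
    intro E hE
    unfold XX at hE
    exact mem_powerset.mp (mem_filter.mp hE).1
  have hXnot : ∀ E ∈ XX c 𝒯, E ∉ 𝒯 := by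
    intro E hE
    unfold XX at hE
    exact (mem_filter.mp hE).2.2
  have hAin : ∀ E ∈ AA c 𝒯, E ∈ 𝒯 := by
    intro E hE
    unfold AA at hE
    exact (mem_filter.mp hE).1
  -- abbreviations
  set T1 : Finset (Fin n) → ℕ → Fin ρ.N → Fin n → ℝ := fun A b i j =>
    (ph θ (dn c 𝒯 k b (ρ.st i) j A) - ph θ (d1 c 𝒯 k b A)) +
      (gg (n - c.val) k (ρ.st i) j (ov (XX c 𝒯) A) (fun E => (mm (n - c.val) k b E.card : ℝ)) -
        hh (ρ.st i) j (ov (XX c 𝒯) A) (fun E => (mm (n - c.val) k b E.card : ℝ))) *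
      ((ph θ (dn c 𝒯 k b (ρ.st i) j A) - ph θ (sm (n - c.val) k b (AA c 𝒯) A)) /
        hh (ρ.st i) j (ov (XX c 𝒯) A) (fun E => (mm (n - c.val) k b E.card : ℝ))) with hT1
  set T2 : Finset (Fin n) → ℕ → Fin ρ.N → Fin n → ℝ := fun A b i j =>
    ph θ (d0 c 𝒯 k b A + gm (n - c.val) k (ρ.st i) j (ov (XX c 𝒯) A)
      (fun E => (mm (n - c.val) k (b + 1) E.card : ℝ))) - ph θ (d0 c 𝒯 k b A) with hT2
  set T3 : Finset (Fin n) → ℕ → Fin n → Fin ρ.N → Fin n → ℝ := fun A b y i j =>
    ph θ (d1 c 𝒯 k b A + gy (n - c.val) k (ρ.st i) j (ov (XX c 𝒯) A)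
      (fun E => (mm (n - c.val) k b E.card : ℝ)) y) - ph θ (d1 c 𝒯 k b A) with hT3
  -- (1) pointwise
  have s1 : ∀ (A : Finset (Fin n)) (b : ℕ) (i : Fin ρ.N) (j : Fin n),
      (wl (n - c.val) b : ℝ) * T1 A b i j + (((n - c.val) - 1).choose b : ℝ) * T2 A b i j ≤
        (wl (n - c.val) b : ℝ) * (ph θ (dn c 𝒯 k b (ρ.st i) j A) - ph θ (d1 c 𝒯 k b A)) +
          (((n - c.val) - 1).choose b : ℝ) *
            (ph θ (dn c 𝒯 k b (ρ.st i) j A) - ph θ (d0 c 𝒯 k b A)) := by
    intro A b i j
    by_cases hb : b < (n - c.val)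
    · have h1 := hGAI n k b θ c 𝒯 (ρ.st i) j A hb
      have h2 := (hSEF (n - c.val) k b 0).2.2 hb
      have h3 := mul_le_mul_of_nonneg_left h1 (Nat.cast_nonneg (α := ℝ) (((n - c.val) - 1).choose b))
      rw [mul_add, ← mul_assoc, h2] at h3
      simp only [hT1, hT2]
      linarith
    · have hc0 : ((n - c.val) - 1).choose b = 0 := Nat.choose_eq_zero_of_lt (by omega)
      rw [hc0]
      by_cases hb2 : b = (n - c.val)
      · simp only [hT1]
        rw [gg_eq_hh hone hb2.symm]
        simp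
      · have hw : wl (n - c.val) b = 0 := by
          unfold wl
          rw [if_neg (by omega)]
          exact Nat.choose_eq_zero_of_lt (by omega)
        rw [hw]
        simp
  -- nonnegativity of the expectation of `G1`
  have s2 : ∀ (A : Finset (Fin n)) (b : ℕ), 1 ≤ b → b ≤ (n - c.val) →
      0 ≤ ex ρ (fun i j => gm (n - c.val) k (ρ.st i) j (ov (XX c 𝒯) A)
        (fun E => (mm (n - c.val) k b E.card : ℝ))) := by
    intro A b hb1 hb2
    apply ex_gm_nonneg ρ hL1 hLn
    · intro E _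
      positivity
    · intro E hE
      have hE' : E ∈ XX c 𝒯 := (mem_filter.mp hE).1
      exact ⟨hXsub E hE', cf1 E hE', cf2' E hE'⟩
    · intro E _ h
      have := (hSEF (n - c.val) k b E.card).2.1 hb1 hb2 h
      rw [this, Nat.cast_zero]
  -- (2)
  have s3 : ∀ (A : Finset (Fin n)) (b : ℕ) (y : Fin n), A ⊆ ini n c.val → y ∈ A → b + 1 ≤ (n - c.val) →
      ex ρ (T3 (A.erase y) (b + 1) y) ≤ ex ρ (T2 A b) := by
    intro A b y hA hy hb
    have h1 := hCMP n k t b c 𝒯 hG hC hb A hA y hy
    have h2 := hMNB (Fin ρ.N × Fin n) ((univ : Finset (Fin ρ.N)) ×ˢ ini n c.val)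
      (fun p => ρ.w p.1 / (c.val : ℝ))
      (fun p => gm (n - c.val) k (ρ.st p.1) p.2 (ov (XX c 𝒯) A) (fun E => (mm (n - c.val) k (b + 1) E.card : ℝ)))
      θ (d1 c 𝒯 k (b + 1) (A.erase y)) (d0 c 𝒯 k b A) (w_nonneg ρ) (w_sum ρ hL1 hLn)
      (by
        have := s2 A (b + 1) (by omega) hb
        rw [ex_eq] at this
        exact this) h1
    rw [ex_eq, ex_eq]
    simp only [hT2, hT3]
    refine le_trans (le_of_eq ?_) h2
    refine sum_congr rfl fun p _ => ?_
    rw [gm_eq_gy (ρ.st p.1) p.2 (XX c 𝒯) _ A y hy]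
  -- (3)
  have s4 : ∀ (A : Finset (Fin n)) (b : ℕ), b + 1 ≤ (n - c.val) → 0 ≤ ex ρ (T2 A b) := by
    intro A b hb
    have h2 := hJNS (Fin ρ.N × Fin n) ((univ : Finset (Fin ρ.N)) ×ˢ ini n c.val)
      (fun p => ρ.w p.1 / (c.val : ℝ))
      (fun p => gm (n - c.val) k (ρ.st p.1) p.2 (ov (XX c 𝒯) A) (fun E => (mm (n - c.val) k (b + 1) E.card : ℝ)))
      θ (d0 c 𝒯 k b A) (w_nonneg ρ)
      (by
        have := s2 A (b + 1) (by omega) hb
        rw [ex_eq] at this
        exact this)
    rw [ex_eq]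
    exact h2
  -- (4)
  have s5 : ∀ (A : Finset (Fin n)) (b : ℕ), A ⊆ ini n c.val → 1 ≤ b → b ≤ (n - c.val) →
      0 ≤ ex ρ (fun i j => (∑ y ∈ ini n c.val \ A, T3 A b y i j) / ((A.card : ℝ) + 1) +
        T1 A b i j) := by
    intro A b hA hb1 hb2
    obtain ⟨q, hq⟩ : ∃ q : Finset (Fin n) → Prop,
        ∀ E, q E ↔ (E.card < k ∧ k ≤ E.card + (n - c.val)) := ⟨_, fun _ => Iff.rfl⟩
    set X := ov (XX c 𝒯) A with hX
    set m : Finset (Fin n) → ℝ := fun E => (mm (n - c.val) k b E.card : ℝ) with hm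
    have hz : ∀ E ∈ X, ¬ q E → m E = 0 := by
      intro E _ h
      have h' : k ≤ E.card ∨ E.card + (n - c.val) < k := by
        rw [hq] at h
        omega
      have := (hSEF (n - c.val) k b E.card).2.1 hb1 hb2 h'
      simp only [hm]
      rw [this, Nat.cast_zero]
    have hXX : ∀ E ∈ X, E ∈ XX c 𝒯 ∧ A ⊆ E := fun E hE => mem_filter.mp hE
    have hprop : ∀ E ∈ X.filter q, A ⊆ E ∧ E ⊆ ini n c.val ∧ t ≤ E.card ∧ E.card + 1 ≤ c.val ∧
        E.card < k ∧ k ≤ E.card + (n - c.val) := by
      intro E hE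
      obtain ⟨hE1, hE2⟩ := mem_filter.mp hE
      obtain ⟨hE3, hE4⟩ := hXX E hE1
      rw [hq] at hE2
      exact ⟨hE4, hXsub E hE3, cf1 E hE3, cf2' E hE3, hE2.1, hE2.2⟩
    have hm0 : ∀ E ∈ X.filter q, 0 ≤ m E := fun E _ => by simp only [hm]; positivity
    have halt : X.filter q = {A} ∨ ((∀ E ∈ X.filter q, A ≠ E) ∧
        ∀ η, 0 ≤ η → η ≤ ∑ E ∈ X.filter q, m E → TT ρ A (X.filter q) m η) := by
      by_cases hAX : A ∈ X.filter q
      · left
        ext E
        rw [mem_singleton]
        constructor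
        · intro hE
          by_contra hne
          obtain ⟨hE3, hE4⟩ := hXX E (mem_filter.mp hE).1
          obtain ⟨hA3, -⟩ := hXX A (mem_filter.mp hAX).1
          have h1 : A ⊂ E := lt_of_le_of_ne hE4 (Ne.symm hne)
          exact hXnot E hE3 (hAin E (cf4 A hA3 E h1 (hXsub E hE3)))
        · intro hE
          rw [hE]
          exact hAX
      · right
        have hne : ∀ E ∈ X.filter q, A ≠ E := by
          intro E hE h
          rw [h] at hAX
          exact hAX hE
        refine ⟨hne, ?_⟩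
        apply hTT A (X.filter q) m hA
        · intro E hE
          obtain ⟨p1, p2⟩ := hprop E hE
          exact ⟨lt_of_le_of_ne p1 (hne E hE), p2⟩
        · exact hm0
    have h1 := hEXT n k t c.val ρ A (X.filter q) m hL1 hLn hA hprop hm0 halt θ
      (sm (n - c.val) k b (AA c 𝒯) A)
    refine le_trans h1 (le_of_eq ?_)
    congr 1
    funext i j
    obtain ⟨f1, f2, f3, f4⟩ := filter_sums (k := k) (ν := n - c.val) (ρ.st i) j X m q hz
    have hd1 : d1 c 𝒯 k b A = sm (n - c.val) k b (AA c 𝒯) A + ∑ E ∈ X, m E := rfl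
    have hdn : dn c 𝒯 k b (ρ.st i) j A = sm (n - c.val) k b (AA c 𝒯) A + hh (ρ.st i) j X m := rfl
    simp only [hT1, hT3]
    rw [hd1, hdn]
    rw [f1, f2]
    have f3' : gg (n - c.val) k (ρ.st i) j (X.filter q) m = gg (n - c.val) k (ρ.st i) j X m := f3
    rw [f3']
    have f4' : ∀ y, gy (n - c.val) k (ρ.st i) j (X.filter q) m y = gy (n - c.val) k (ρ.st i) j X m y := f4
    simp only [f4']
    rfl
  -- the two sides
  obtain ⟨u1, u2⟩ := hSUM n k t r θ c 𝒯 hG
  rw [u1]
  have e1 : ex ρ (fun i j => Lam r θ (fam k c.val (AA c 𝒯 ∪ YY (ρ.st i) j (XX c 𝒯)))) =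
      ∑ A ∈ (ini n c.val).powerset, ex ρ (fun i j => if A.card ≤ r then
          ((wl (n - c.val) (r - A.card) : ℝ) + (((n - c.val) - 1).choose (r - A.card) : ℝ)) *
            ph θ (dn c 𝒯 k (r - A.card) (ρ.st i) j A) else 0) := by
    rw [← ex_sum]
    congr 1
    funext i j
    exact u2 (ρ.st i) j
  rw [e1, ← sub_nonneg, ← sum_sub_distrib]
  -- lower bound of every term
  have e2 : ∀ A ∈ (ini n c.val).powerset,
      (if A.card ≤ r then (wl (n - c.val) (r - A.card) : ℝ) * ex ρ (T1 A (r - A.card)) +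
        (((n - c.val) - 1).choose (r - A.card) : ℝ) * ex ρ (T2 A (r - A.card)) else 0) ≤
      ex ρ (fun i j => if A.card ≤ r then
          ((wl (n - c.val) (r - A.card) : ℝ) + (((n - c.val) - 1).choose (r - A.card) : ℝ)) *
            ph θ (dn c 𝒯 k (r - A.card) (ρ.st i) j A) else 0) -
      (if A.card ≤ r then
        (wl (n - c.val) (r - A.card) : ℝ) * ph θ (d1 c 𝒯 k (r - A.card) A) +
          (((n - c.val) - 1).choose (r - A.card) : ℝ) * ph θ (d0 c 𝒯 k (r - A.card) A) else 0) := by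
    intro A _
    by_cases hr : A.card ≤ r
    · simp only [if_pos hr]
      rw [← ex_mul, ← ex_mul, ← ex_add]
      have hcst := ex_const (n := n) ρ hL1 hLn
        ((wl (n - c.val) (r - A.card) : ℝ) * ph θ (d1 c 𝒯 k (r - A.card) A) +
          (((n - c.val) - 1).choose (r - A.card) : ℝ) * ph θ (d0 c 𝒯 k (r - A.card) A))
      rw [← hcst, ← ex_sub]
      apply ex_mono
      intro i j
      have := s1 A (r - A.card) i j
      linarith
    · simp only [if_neg hr]
      rw [ex_const ρ hL1 hLn]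
      simp
  refine le_trans ?_ (sum_le_sum e2)
  -- the second sums
  set Fn : Finset (Fin n) → Fin n → ℝ := fun A y =>
    if A.card + 1 ≤ r then (wl (n - c.val) (r - A.card) : ℝ) * (ex ρ (T3 A (r - A.card) y) /
      ((A.card : ℝ) + 1)) else 0 with hFn
  have e3 : ∀ A ∈ (ini n c.val).powerset, ∑ y ∈ A, Fn (A.erase y) y ≤
      if A.card ≤ r then (((n - c.val) - 1).choose (r - A.card) : ℝ) * ex ρ (T2 A (r - A.card)) else 0 := by
    intro A hA
    have hA' := mem_powerset.mp hA
    by_cases hr : A.card ≤ r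
    · rw [if_pos hr]
      by_cases hb : (r - A.card) + 1 ≤ (n - c.val)
      · rcases A.eq_empty_or_nonempty with hA0 | hA0
        · rw [hA0, sum_empty]
          exact mul_nonneg (Nat.cast_nonneg _) (s4 _ _ (by rw [hA0] at hb; exact hb))
        · have hcard : (0 : ℝ) < A.card := by exact_mod_cast hA0.card_pos
          have hcpos := hA0.card_pos
          have h3 : ∀ y ∈ A, Fn (A.erase y) y ≤
              (((n - c.val) - 1).choose (r - A.card) : ℝ) * ex ρ (T2 A (r - A.card)) / A.card := by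
            intro y hy
            have hce : (A.erase y).card = A.card - 1 := card_erase_of_mem hy
            simp only [hFn]
            rw [if_pos (by rw [hce]; omega)]
            have h4 : r - (A.erase y).card = (r - A.card) + 1 := by rw [hce]; omega
            have h5 : ((A.erase y).card : ℝ) + 1 = A.card := by
              rw [hce, Nat.cast_sub (by omega)]
              push_cast
              ring
            rw [h4, h5]
            have h6 : wl (n - c.val) (r - A.card + 1) = ((n - c.val) - 1).choose (r - A.card) := by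
              unfold wl
              rw [if_neg (by omega)]
              rfl
            rw [h6, mul_div_assoc]
            apply mul_le_mul_of_nonneg_left _ (Nat.cast_nonneg _)
            exact div_le_div_of_nonneg_right (s3 A (r - A.card) y hA' hy hb) hcard.le
          refine le_trans (sum_le_sum h3) ?_
          rw [sum_const, nsmul_eq_mul]
          apply le_of_eq
          field_simp
      · have hc0 : ((n - c.val) - 1).choose (r - A.card) = 0 := Nat.choose_eq_zero_of_lt (by omega)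
        rw [hc0, Nat.cast_zero, zero_mul]
        apply le_of_eq
        apply sum_eq_zero
        intro y hy
        have hce : (A.erase y).card = A.card - 1 := card_erase_of_mem hy
        have hcpos : 0 < A.card := card_pos.mpr ⟨y, hy⟩
        simp only [hFn]
        rw [if_pos (by rw [hce]; omega)]
        have h4 : r - (A.erase y).card = (r - A.card) + 1 := by rw [hce]; omega
        have h6 : wl (n - c.val) (r - A.card + 1) = ((n - c.val) - 1).choose (r - A.card) := by
          unfold wl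
          rw [if_neg (by omega)]
          rfl
        rw [h4, h6, hc0, Nat.cast_zero, zero_mul]
    · rw [if_neg hr]
      apply le_of_eq
      apply sum_eq_zero
      intro y hy
      have hce : (A.erase y).card = A.card - 1 := card_erase_of_mem hy
      simp only [hFn]
      rw [if_neg (by rw [hce]; omega)]
  have e4 : ∑ A ∈ (ini n c.val).powerset, ((if A.card ≤ r then
        (wl (n - c.val) (r - A.card) : ℝ) * ex ρ (T1 A (r - A.card)) else 0) +
        ∑ y ∈ ini n c.val \ A, Fn A y) ≤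
      ∑ A ∈ (ini n c.val).powerset,
        (if A.card ≤ r then (wl (n - c.val) (r - A.card) : ℝ) * ex ρ (T1 A (r - A.card)) +
          (((n - c.val) - 1).choose (r - A.card) : ℝ) * ex ρ (T2 A (r - A.card)) else 0) := by
    rw [sum_add_distrib, ← reindex, ← sum_add_distrib]
    refine sum_le_sum fun A hA => ?_
    have := e3 A hA
    by_cases hr : A.card ≤ r
    · rw [if_pos hr] at this ⊢
      rw [if_pos hr]
      linarith
    · rw [if_neg hr] at this ⊢
      rw [if_neg hr]
      linarith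
  refine le_trans (sum_nonneg fun A hA => ?_) e4
  have hA' := mem_powerset.mp hA
  by_cases hr : A.card + 1 ≤ r
  · rw [if_pos (by omega)]
    simp only [hFn, if_pos hr]
    rw [← mul_sum, ← mul_add]
    by_cases hb : r - A.card ≤ (n - c.val)
    · apply mul_nonneg (Nat.cast_nonneg _)
      have h5 := s5 A (r - A.card) hA' (by omega) hb
      rw [ex_add] at h5
      have h6 : ex ρ (fun i j => (∑ y ∈ ini n c.val \ A, T3 A (r - A.card) y i j) /
          ((A.card : ℝ) + 1)) =
          ∑ y ∈ ini n c.val \ A, ex ρ (T3 A (r - A.card) y) / ((A.card : ℝ) + 1) := by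
        rw [← sum_div, ← ex_sum, div_eq_inv_mul, ← ex_mul]
        congr 1
        funext i j
        rw [div_eq_inv_mul]
      rw [h6] at h5
      linarith
    · have hw : wl (n - c.val) (r - A.card) = 0 := by
        unfold wl
        rw [if_neg (by omega)]
        exact Nat.choose_eq_zero_of_lt (by omega)
      rw [hw, Nat.cast_zero, zero_mul]
  · simp only [hFn, if_neg hr, sum_const_zero, add_zero]
    by_cases hr2 : A.card ≤ r
    · rw [if_pos hr2]
      have h0 : r - A.card = 0 := by omega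
      rw [h0]
      simp [wl]
    · rw [if_neg hr2]

end Pool.Agent.DPF.H15
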